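import Pool.Agent.Helper77_BS.Borsuk

/-! # BS squad: module ARCCOMPL -/

set_option autoImplicit false

namespace Pool.Agent.BS.H77

open Function Filter Topology Set

theorem comp_circle {z : ℂ} {r : ℝ} (hr : 0 < r) :
    connectedComponentIn (Metric.sphere z r)ᶜ z ⊆ Metric.ball z r := by
  have hpre : IsPreconnected (connectedComponentIn (Metric.sphere z r)ᶜ z) :=
    isPreconnected_connectedComponentIn
  have hzs : z ∈ (Metric.sphere z r)ᶜ := by
    rw [mem_compl_iff, Metric.mem_sphere, dist_self]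
    exact hr.ne
  have hzm : z ∈ connectedComponentIn (Metric.sphere z r)ᶜ z := mem_connectedComponentIn hzs
  refine IsPreconnected.subset_left_of_subset_union Metric.isOpen_ball
    (Metric.isClosed_closedBall (x := z) (ε := r)).isOpen_compl ?_ ?_
    ⟨z, hzm, Metric.mem_ball_self hr⟩ hpre
  · rw [disjoint_compl_right_iff_subset]
    exact Metric.ball_subset_closedBall
  · intro x hx
    have h1 := connectedComponentIn_subset _ _ hx
    rw [mem_compl_iff, Metric.mem_sphere] at h1
    rcases lt_or_gt_of_ne h1 with h | h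
    · exact Or.inl (Metric.mem_ball.2 h)
    · exact Or.inr (by rw [mem_compl_iff, Metric.mem_closedBall]; exact not_le.2 h)

/-- arcs have empty interior -/
theorem arc_interior (hArc : ArcLogStmt) (hBor : BorsukStmt) {K : Set ℂ} {x y : ℂ}
    (h : IsArc K x y) : interior K = ∅ := by
  by_contra hne
  obtain ⟨z, hz⟩ := nonempty_iff_ne_empty.2 hne
  obtain ⟨ρ, hρ, hb⟩ := Metric.isOpen_iff.1 isOpen_interior z hz
  obtain ⟨α, hα, hi, h0, h1, rfl⟩ := h
  set K := α '' Icc (0:ℝ) 1
  have hr : 0 < ρ / 2 := by positivity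
  have hSK : Metric.sphere z (ρ / 2) ⊆ K := by
    intro w hw
    apply interior_subset (hb _)
    rw [Metric.mem_ball, Metric.mem_sphere.1 hw]
    linarith
  have hScon : IsConnected (Metric.sphere z (ρ / 2)) :=
    isConnected_sphere (by simp) z hr.le
  -- the preimage of the circle is an interval
  have hcont : ContinuousOn (invFunOn α (Icc 0 1)) (Metric.sphere z (ρ / 2)) :=
    (inv_cont isCompact_Icc hα hi).mono hSK
  set J := invFunOn α (Icc 0 1) '' Metric.sphere z (ρ / 2) with hJ
  have hJc : IsCompact J := (isCompact_sphere z (ρ / 2)).image_of_continuousOn hcont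
  have hJcon : IsConnected J := hScon.image _ hcont
  have hJe : J = Icc (sInf J) (sSup J) := eq_Icc_of_connected_compact hJcon hJc
  have hJsub : J ⊆ Icc 0 1 := by
    rintro _ ⟨w, hw, rfl⟩
    exact invFunOn_mem (hSK hw)
  have hJα : α '' J = Metric.sphere z (ρ / 2) := by
    rw [hJ, image_image]
    ext w
    constructor
    · rintro ⟨v, hv, rfl⟩
      simp only
      rw [invFunOn_eq (hSK hv)]
      exact hv
    · intro hw
      exact ⟨w, hw, invFunOn_eq (hSK hw)⟩
  have ha : sInf J ∈ J := hJc.sInf_mem hJcon.nonempty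
  have hb' : sSup J ∈ J := hJc.sSup_mem hJcon.nonempty
  have hlt : sInf J < sSup J := by
    rcases lt_or_ge (sInf J) (sSup J) with h | h
    · exact h
    exfalso
    have h1 : (z + (ρ / 2 : ℝ)) ∈ α '' J := by
      rw [hJα, Metric.mem_sphere, Complex.dist_eq]
      simp only [add_sub_cancel_left, Complex.norm_real, Real.norm_eq_abs]
      exact abs_of_pos hr
    have h2 : (z - (ρ / 2 : ℝ)) ∈ α '' J := by
      rw [hJα, Metric.mem_sphere, Complex.dist_eq]
      simp only [sub_sub_cancel_left, norm_neg, Complex.norm_real, Real.norm_eq_abs]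
      exact abs_of_pos hr
    obtain ⟨s, hs, hs'⟩ := h1
    obtain ⟨t, ht, ht'⟩ := h2
    rw [hJe] at hs ht
    have hst : s = t := by linarith [hs.1, hs.2, ht.1, ht.2]
    rw [hst, ht'] at hs'
    have h3 : ((ρ / 2 : ℝ) : ℂ) = 0 := by linear_combination (-1/2 : ℂ) * hs'
    rw [Complex.ofReal_eq_zero] at h3
    exact hr.ne' h3
  have harc : IsArc (Metric.sphere z (ρ / 2)) (α (sInf J)) (α (sSup J)) := by
    have := sub_arc hα hi (hJsub ha).1 hlt (hJsub hb').2
    rw [← hJe, hJα] at this
    exact this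
  have hzs : z ∉ Metric.sphere z (ρ / 2) := by
    rw [Metric.mem_sphere, dist_self]
    exact hr.ne
  obtain ⟨g, hg, he⟩ := hArc _ _ _ harc (fun w => w - z) (by fun_prop) (by
    intro w hw h0
    rw [sub_eq_zero] at h0
    exact hzs (h0 ▸ hw))
  have hz2 : z + (ρ : ℝ) ∉ Metric.closedBall z (ρ / 2) := by
    rw [Metric.mem_closedBall, Complex.dist_eq]
    simp only [add_sub_cancel_left, Complex.norm_real, Real.norm_eq_abs]
    rw [abs_of_pos hρ]
    linarith
  refine hBor (Metric.sphere z (ρ / 2)) z (z + (ρ : ℝ)) 1 0 (isCompact_sphere _ _) hzs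
    (fun h => hz2 (Metric.sphere_subset_closedBall h))
    (Metric.isBounded_ball.subset (comp_circle hr))
    (fun h => hz2 (Metric.ball_subset_closedBall (comp_circle hr h))) one_ne_zero ⟨g, hg, ?_⟩
  intro w hw
  rw [he w hw]
  simp

/-- ARCCOMPL -/
theorem arcCompl (hBor : BorsukStmt) (hArc : ArcLogStmt) : ArcComplStmt := by
  intro K x y h
  have hint := arc_interior hArc hBor h
  refine ⟨?_, hint⟩
  intro K' hK'K hK'c
  have hKc : IsCompact K := (arc_basic h).1
  have hK' : IsCompact K' := hKc.of_isClosed_subset hK'c hK'K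
  obtain ⟨R, hR0, hR⟩ := hK'.isBounded.exists_pos_norm_le
  have hout : {z : ℂ | R < ‖z‖} ⊆ K'ᶜ := by
    intro z hz hzK
    exact absurd (hR z hzK) (not_le.2 hz)
  have hpt : ((R + 1 : ℝ) : ℂ) ∈ {z : ℂ | R < ‖z‖} := by
    simp only [mem_ofPred_eq, Complex.norm_real, Real.norm_eq_abs]
    rw [abs_of_pos (by linarith)]
    linarith
  refine ⟨⟨_, hout hpt⟩, ?_⟩
  -- every component is unbounded
  have hunb : ∀ z ∈ K'ᶜ, ¬ Bornology.IsBounded (connectedComponentIn K'ᶜ z) := by
    intro z hz hb
    have ho : IsOpen (connectedComponentIn K'ᶜ z) := hK'c.isOpen_compl.connectedComponentIn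
    have hzm : z ∈ connectedComponentIn K'ᶜ z := mem_connectedComponentIn hz
    obtain ⟨z₁, hz1, hz1K⟩ : ∃ z₁ ∈ connectedComponentIn K'ᶜ z, z₁ ∉ K := by
      by_contra hcon
      push Not at hcon
      have : connectedComponentIn K'ᶜ z ⊆ interior K := interior_maximal hcon ho
      rw [hint] at this
      exact this hzm
    obtain ⟨R', hR'0, hR'⟩ := (hb.union hK'.isBounded).exists_pos_norm_le
    have hz2 : ((R' + 1 : ℝ) : ℂ) ∉ connectedComponentIn K'ᶜ z ∪ K' := by
      intro hmem
      have := hR' _ hmem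
      rw [Complex.norm_real, Real.norm_eq_abs, abs_of_pos (by linarith)] at this
      linarith
    obtain ⟨g, hg, he⟩ := hArc K x y h (fun w => w - z₁) (by fun_prop) (by
      intro w hw h0
      rw [sub_eq_zero] at h0
      exact hz1K (h0 ▸ hw))
    have hceq := connectedComponentIn_eq hz1
    refine hBor K' z₁ ((R' + 1 : ℝ) : ℂ) 1 0 hK' (fun hh => hz1K (hK'K hh))
      (fun hh => hz2 (Or.inr hh)) (by rw [← hceq]; exact hb)
      (fun hh => hz2 (Or.inl (by rw [hceq]; exact hh))) one_ne_zero ⟨g, hg.mono hK'K, ?_⟩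
    intro w hw
    rw [he w (hK'K hw)]
    simp
  have hsub : ∀ z ∈ K'ᶜ, ((R + 1 : ℝ) : ℂ) ∈ connectedComponentIn K'ᶜ z := by
    intro z hz
    have h1 : ∃ w ∈ connectedComponentIn K'ᶜ z, R < ‖w‖ := by
      by_contra hcon
      push Not at hcon
      apply hunb z hz
      rw [isBounded_iff_forall_norm_le]
      exact ⟨R, hcon⟩
    obtain ⟨w, hw, hwR⟩ := h1
    have h2 : {z : ℂ | R < ‖z‖} ⊆ connectedComponentIn K'ᶜ w :=
      (preconn_out hR0).subset_connectedComponentIn hwR hout
    rw [connectedComponentIn_eq hw]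
    exact h2 hpt
  refine isPreconnected_of_forall ((R + 1 : ℝ) : ℂ) fun z hz => ?_
  exact ⟨connectedComponentIn K'ᶜ z, connectedComponentIn_subset _ _, hsub z hz,
    mem_connectedComponentIn hz, isPreconnected_connectedComponentIn⟩

end Pool.Agent.BS.H77
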