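import Pool.Agent.Helper77_BS.Log

/-! # BS squad: operations on arcs, module ARCOP -/

set_option autoImplicit false

namespace Pool.Agent.BS.H77

open Function Filter Topology Set

theorem arc_symm {K : Set ℂ} {x y : ℂ} (h : IsArc K x y) : IsArc K y x := by
  obtain ⟨α, hα, hi, h0, h1, rfl⟩ := h
  have hm : MapsTo (fun t : ℝ => 1 - t) (Icc 0 1) (Icc 0 1) := by
    intro t ht
    exact ⟨by linarith [ht.2], by linarith [ht.1]⟩
  refine ⟨fun t => α (1 - t), hα.comp (by fun_prop) hm, ?_, by simp [h1], by simp [h0], ?_⟩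
  · intro s hs t ht hst
    have := hi (hm hs) (hm ht) hst
    linarith
  · ext z
    constructor
    · rintro ⟨t, ht, rfl⟩
      exact ⟨1 - t, hm ht, rfl⟩
    · rintro ⟨t, ht, rfl⟩
      exact ⟨1 - t, hm ht, by simp⟩

theorem arc_basic {K : Set ℂ} {x y : ℂ} (h : IsArc K x y) :
    IsCompact K ∧ IsConnected K ∧ x ∈ K ∧ y ∈ K ∧ x ≠ y := by
  obtain ⟨α, hα, hi, h0, h1, rfl⟩ := h
  refine ⟨isCompact_Icc.image_of_continuousOn hα, (isConnected_Icc zero_le_one).image α hα,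
    ⟨0, by simp, h0⟩, ⟨1, by simp, h1⟩, ?_⟩
  rintro rfl
  have := hi (x₁ := 0) (x₂ := 1) (by simp) (by simp) (by rw [h0, h1])
  norm_num at this

/-- subarcs -/
theorem sub_arc {α : ℝ → ℂ} (hα : ContinuousOn α (Icc 0 1)) (hi : InjOn α (Icc 0 1)) {a b : ℝ}
    (ha : 0 ≤ a) (hab : a < b) (hb : b ≤ 1) : IsArc (α '' Icc a b) (α a) (α b) := by
  have hm : MapsTo (fun t : ℝ => a + (b - a) * t) (Icc 0 1) (Icc a b) := by
    intro t ht
    constructor
    · have := mul_nonneg (sub_nonneg.2 hab.le) ht.1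
      simp only; linarith
    · have := mul_le_mul_of_nonneg_left ht.2 (sub_nonneg.2 hab.le)
      simp only; linarith
  have hs : Icc a b ⊆ Icc (0:ℝ) 1 := Icc_subset_Icc ha hb
  refine ⟨fun t => α (a + (b - a) * t), hα.comp (by fun_prop) (hm.mono_right hs), ?_, by simp,
    by simp, ?_⟩
  · intro s hs' t ht' hst
    have := hi (hs (hm hs')) (hs (hm ht')) hst
    have h2 : (b - a) * s = (b - a) * t := by simp only at this; linarith
    exact mul_left_cancel₀ (sub_pos.2 hab).ne' h2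
  · ext z
    constructor
    · rintro ⟨t, ht, rfl⟩
      exact ⟨_, hm ht, rfl⟩
    · rintro ⟨t, ht, rfl⟩
      have hd : 0 < b - a := sub_pos.2 hab
      refine ⟨(t - a) / (b - a), ⟨div_nonneg (by linarith [ht.1]) hd.le,
        (div_le_one hd).2 (by linarith [ht.2])⟩, ?_⟩
      simp only
      congr 1
      field_simp
      ring

theorem arc_cat {K K' : Set ℂ} {x y z : ℂ} (h : IsArc K x y) (h' : IsArc K' y z)
    (hK : K ∩ K' = {y}) : IsArc (K ∪ K') x z := by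
  obtain ⟨α, hα, hi, h0, h1, rfl⟩ := h
  obtain ⟨β, hβ, hj, k0, k1, rfl⟩ := h'
  have hm1 : MapsTo (fun t : ℝ => 2 * t) (Icc 0 (1/2)) (Icc 0 1) := by
    intro t ht
    exact ⟨by simp only; linarith [ht.1], by simp only; linarith [ht.2]⟩
  have hm2 : MapsTo (fun t : ℝ => 2 * t - 1) (Icc (1/2) 1) (Icc 0 1) := by
    intro t ht
    exact ⟨by simp only; linarith [ht.1], by simp only; linarith [ht.2]⟩
  set γ : ℝ → ℂ := fun t => if t ≤ 1/2 then α (2 * t) else β (2 * t - 1) with hγ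
  have g1 : ∀ t, t ≤ 1/2 → γ t = α (2 * t) := fun t ht => by simp only [hγ, if_pos ht]
  have g2 : ∀ t, 1/2 ≤ t → γ t = β (2 * t - 1) := by
    intro t ht
    rcases ht.eq_or_lt with h | h
    · rw [g1 t h.symm.le, ← h]
      norm_num
      rw [h1, k0]
    · simp only [hγ, if_neg (not_le.2 h)]
  have hu : Icc (0:ℝ) 1 = Icc 0 (1/2) ∪ Icc (1/2) 1 :=
    (Icc_union_Icc_eq_Icc (by norm_num) (by norm_num)).symm
  refine ⟨γ, ?_, ?_, ?_, ?_, ?_⟩
  · rw [hu]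
    refine ContinuousOn.union_of_isClosed ?_ ?_ isClosed_Icc isClosed_Icc
    · exact (hα.comp (by fun_prop) hm1).congr (fun t ht => g1 t ht.2)
    · exact (hβ.comp (by fun_prop) hm2).congr (fun t ht => g2 t ht.1)
  · have key : ∀ s t : ℝ, s ∈ Icc (0:ℝ) (1/2) → t ∈ Icc (1/2 : ℝ) 1 → γ s = γ t → s = t := by
      intro s t hs ht hst
      rw [g1 s hs.2, g2 t ht.1] at hst
      have hy : α (2 * s) ∈ α '' Icc 0 1 ∩ β '' Icc 0 1 :=
        ⟨mem_image_of_mem α (hm1 hs), by rw [hst]; exact mem_image_of_mem β (hm2 ht)⟩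
      rw [hK] at hy
      have e1 : α (2 * s) = α 1 := by rw [h1]; exact hy
      have e2 : β (2 * t - 1) = β 0 := by rw [k0, ← hst]; exact hy
      have f1 := hi (hm1 hs) (by simp) e1
      have f2 := hj (hm2 ht) (by simp) e2
      simp only at f1 f2
      linarith
    intro s hs t ht hst
    rcases le_total s (1/2) with h | h <;> rcases le_total t (1/2) with h' | h'
    · rw [g1 s h, g1 t h'] at hst
      have := hi (hm1 ⟨hs.1, h⟩) (hm1 ⟨ht.1, h'⟩) hst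
      simp only at this
      linarith
    · exact key s t ⟨hs.1, h⟩ ⟨h', ht.2⟩ hst
    · exact (key t s ⟨ht.1, h'⟩ ⟨h, hs.2⟩ hst.symm).symm
    · rw [g2 s h, g2 t h'] at hst
      have := hj (hm2 ⟨h, hs.2⟩) (hm2 ⟨h', ht.2⟩) hst
      simp only at this
      linarith
  · rw [g1 0 (by norm_num)]; simpa using h0
  · rw [g2 1 (by norm_num)]; norm_num; exact k1
  · ext w
    constructor
    · rintro ⟨t, ht, rfl⟩
      rcases le_total t (1/2) with h | h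
      · rw [g1 t h]; exact Or.inl (mem_image_of_mem α (hm1 ⟨ht.1, h⟩))
      · rw [g2 t h]; exact Or.inr (mem_image_of_mem β (hm2 ⟨h, ht.2⟩))
    · rintro (⟨t, ht, rfl⟩ | ⟨t, ht, rfl⟩)
      · refine ⟨t / 2, ⟨by linarith [ht.1], by linarith [ht.2]⟩, ?_⟩
        rw [g1 _ (by linarith [ht.2])]
        congr 1; ring
      · refine ⟨(t + 1) / 2, ⟨by linarith [ht.1], by linarith [ht.2]⟩, ?_⟩
        rw [g2 _ (by linarith [ht.1])]
        congr 1; ring

theorem arc_param {α : ℝ → ℂ} {x y w : ℂ} (h0 : α 0 = x) (h1 : α 1 = y)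
    (hw : w ∈ α '' Icc (0:ℝ) 1) (hx : w ≠ x) (hy : w ≠ y) : ∃ s, 0 < s ∧ s < 1 ∧ α s = w := by
  obtain ⟨s, hs, rfl⟩ := hw
  refine ⟨s, lt_of_le_of_ne hs.1 ?_, lt_of_le_of_ne hs.2 ?_, rfl⟩
  · rintro rfl; exact hx h0
  · rintro rfl; exact hy h1

theorem arc_cut {K : Set ℂ} {x y w : ℂ} (h : IsArc K x y) (hw : w ∈ K) (hx : w ≠ x) (hy : w ≠ y) :
    ∃ K₁ K₂, IsArc K₁ x w ∧ IsArc K₂ w y ∧ K₁ ∪ K₂ = K ∧ K₁ ∩ K₂ = {w} := by
  obtain ⟨α, hα, hi, h0, h1, rfl⟩ := h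
  obtain ⟨s, hs0, hs1, rfl⟩ := arc_param h0 h1 hw hx hy
  refine ⟨α '' Icc 0 s, α '' Icc s 1, ?_, ?_, ?_, ?_⟩
  · rw [← h0]; exact sub_arc hα hi le_rfl hs0 hs1.le
  · rw [← h1]; exact sub_arc hα hi hs0.le hs1 le_rfl
  · rw [← image_union, Icc_union_Icc_eq_Icc hs0.le hs1.le]
  · rw [← hi.image_inter (Icc_subset_Icc le_rfl hs1.le) (Icc_subset_Icc hs0.le le_rfl)]
    have : Icc 0 s ∩ Icc s 1 = {s} := by
      ext t
      simp only [mem_inter_iff, mem_Icc, mem_singleton_iff]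
      constructor
      · rintro ⟨⟨_, h⟩, ⟨h', _⟩⟩; exact le_antisymm h h'
      · rintro rfl; exact ⟨⟨hs0.le, le_rfl⟩, ⟨le_rfl, hs1.le⟩⟩
    rw [this, image_singleton]

theorem arc_gap {K : Set ℂ} {x y w : ℂ} (h : IsArc K x y) (hw : w ∈ K) (hx : w ≠ x) (hy : w ≠ y)
    (ε : ℝ) (hε : 0 < ε) :
    ∃ K₁ K₂ x' y', IsArc K₁ x x' ∧ IsArc K₂ y' y ∧ K₁ ∪ K₂ ⊆ K ∧ Disjoint K₁ K₂ ∧
      w ∉ K₁ ∪ K₂ ∧ ∀ v ∈ K, v ∉ K₁ ∪ K₂ → dist v w < ε := by
  obtain ⟨α, hα, hi, h0, h1, rfl⟩ := h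
  obtain ⟨s, hs0, hs1, rfl⟩ := arc_param h0 h1 hw hx hy
  have hc : ContinuousWithinAt α (Icc 0 1) s := hα s ⟨hs0.le, hs1.le⟩
  obtain ⟨δ, hδ, hd⟩ := Metric.continuousWithinAt_iff.1 hc ε hε
  set δ' := min δ (min s (1 - s)) / 2 with hδ'
  have p0 : 0 < min δ (min s (1 - s)) := lt_min hδ (lt_min hs0 (by linarith))
  have p1 : 0 < δ' := by positivity
  have p2 : δ' < δ := by
    have := min_le_left δ (min s (1 - s)); linarith
  have p3 : δ' < s := by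
    have := (min_le_right δ (min s (1 - s))).trans (min_le_left _ _); linarith
  have p4 : δ' < 1 - s := by
    have := (min_le_right δ (min s (1 - s))).trans (min_le_right _ _); linarith
  have hs1' : Icc 0 (s - δ') ⊆ Icc (0:ℝ) 1 := Icc_subset_Icc le_rfl (by linarith)
  have hs2' : Icc (s + δ') 1 ⊆ Icc (0:ℝ) 1 := Icc_subset_Icc (by linarith) le_rfl
  refine ⟨α '' Icc 0 (s - δ'), α '' Icc (s + δ') 1, α (s - δ'), α (s + δ'), ?_, ?_, ?_, ?_, ?_, ?_⟩
  · rw [← h0]; exact sub_arc hα hi le_rfl (by linarith) (by linarith)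
  · rw [← h1]; exact sub_arc hα hi (by linarith) (by linarith) le_rfl
  · exact union_subset (image_mono hs1') (image_mono hs2')
  · rw [disjoint_left]
    rintro _ ⟨a, ha, rfl⟩ ⟨b, hb, hab⟩
    have := hi (hs2' hb) (hs1' ha) hab
    linarith [ha.2, hb.1]
  · rintro (⟨a, ha, hab⟩ | ⟨a, ha, hab⟩)
    · have := hi (hs1' ha) ⟨hs0.le, hs1.le⟩ hab
      linarith [ha.2]
    · have := hi (hs2' ha) ⟨hs0.le, hs1.le⟩ hab
      linarith [ha.1]
  · rintro _ ⟨t, ht, rfl⟩ hn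
    apply hd ht
    rw [Real.dist_eq, abs_lt]
    constructor
    · by_contra hcon
      exact hn (Or.inl ⟨t, ⟨ht.1, by linarith⟩, rfl⟩)
    · by_contra hcon
      exact hn (Or.inr ⟨t, ⟨by linarith, ht.2⟩, rfl⟩)

/-- ARCOP -/
theorem arcOp : ArcOpStmt :=
  ⟨fun _ _ _ h => arc_symm h, fun _ _ _ h => arc_basic h, fun _ _ _ _ _ h h' hK => arc_cat h h' hK,
    fun _ _ _ _ h hw hx hy => arc_cut h hw hx hy,
    fun _ _ _ _ h hw hx hy ε hε => arc_gap h hw hx hy ε hε⟩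

end Pool.Agent.BS.H77
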