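import Pool.Agent.Helper77_BS.ArcOp

/-! # BS squad: module BORSUK -/

set_option autoImplicit false

namespace Pool.Agent.BS.H77

open Function Filter Topology Set

/-- the outside of a disc is connected -/
theorem preconn_out {R : ℝ} (hR : 0 < R) : IsPreconnected {z : ℂ | R < ‖z‖} := by
  have h : IsPreconnected {z : ℂ | Real.log R < z.re} := (convex_halfSpace_re_gt _).isPreconnected
  have h2 := h.image Complex.exp Complex.continuous_exp.continuousOn
  convert h2 using 1
  ext w
  constructor
  · intro hw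
    have hw0 : w ≠ 0 := by
      rintro rfl
      simp only [mem_ofPred_eq, norm_zero] at hw
      linarith
    refine ⟨Complex.log w, ?_, Complex.exp_log hw0⟩
    simp only [mem_ofPred_eq, Complex.log_re]
    exact Real.log_lt_log hR hw
  · rintro ⟨z, hz, rfl⟩
    simp only [mem_ofPred_eq, Complex.norm_exp]
    simp only [mem_ofPred_eq] at hz
    calc R = Real.exp (Real.log R) := (Real.exp_log hR).symm
      _ < Real.exp z.re := Real.exp_lt_exp.2 hz

/-- closure of a complementary component -/
theorem closure_comp {K : Set ℂ} (hK : IsClosed K) (z : ℂ) :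
    closure (connectedComponentIn Kᶜ z) ⊆ connectedComponentIn Kᶜ z ∪ K := by
  intro x hx
  by_cases hxK : x ∈ K
  · exact Or.inr hxK
  left
  have ho : IsOpen (connectedComponentIn Kᶜ x) := hK.isOpen_compl.connectedComponentIn
  have hxm : x ∈ connectedComponentIn Kᶜ x := mem_connectedComponentIn hxK
  obtain ⟨y, hy1, hy2⟩ := mem_closure_iff.1 hx _ ho hxm
  rw [connectedComponentIn_eq hy1, ← connectedComponentIn_eq hy2] at hxm
  exact hxm

/-- no logarithm of `t ^ m` on a big circle -/
theorem no_log_circle {z : ℂ} {R : ℝ} (hR : 0 < R) {m : ℤ} (hm : m ≠ 0) {g : ℂ → ℂ}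
    (hg : ContinuousOn g (Metric.sphere z R))
    (he : ∀ x ∈ Metric.sphere z R, Complex.exp (g x) = (x - z) ^ m) : False := by
  set c : ℝ → ℂ := fun θ => circleMap z R θ with hc
  have hcc : Continuous c := continuous_circleMap z R
  have hcm : ∀ θ, c θ ∈ Metric.sphere z R := fun θ => circleMap_mem_sphere z hR.le θ
  set L : ℝ → ℂ := fun θ => g (c θ) - m * (θ * Complex.I) with hL
  have hLc : Continuous L := by
    have : Continuous (fun θ => g (c θ)) := hg.comp_continuous hcc hcm
    exact this.sub (by fun_prop)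
  have hLe : ∀ θ, Complex.exp (L θ) = (R:ℂ) ^ m := by
    intro θ
    simp only [hL, Complex.exp_sub]
    rw [he _ (hcm θ)]
    have h1 : c θ - z = R * Complex.exp (θ * Complex.I) := by
      simp only [hc, circleMap]; ring
    rw [h1, mul_zpow, ← Complex.exp_int_mul]
    exact mul_div_cancel_right₀ _ (Complex.exp_ne_zero _)
  -- the integer valued function
  have hR0 : (R:ℂ) ≠ 0 := by exact_mod_cast hR.ne'
  have hconst : ∀ θ, L θ = L 0 := by
    have hd : ∀ θ, ∃ n : ℤ, L θ - L 0 = n * (2 * Real.pi * Complex.I) := by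
      intro θ
      have : Complex.exp (L θ) = Complex.exp (L 0) := by rw [hLe, hLe]
      obtain ⟨n, hn⟩ := Complex.exp_eq_exp_iff_exists_int.1 this
      exact ⟨n, by rw [hn]; ring⟩
    choose n hn using hd
    have hpi : (2 * Real.pi * Complex.I : ℂ) ≠ 0 := Complex.two_pi_I_ne_zero
    have hcn : Continuous (fun θ => ((n θ : ℤ) : ℝ)) := by
      have h1 : Continuous (fun θ => ((L θ - L 0) / (2 * Real.pi * Complex.I)).re) := by
        fun_prop
      refine h1.congr fun θ => ?_
      rw [hn θ, mul_div_cancel_right₀ _ hpi]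
      simp
    have hcn' : Continuous n := by
      have : IsClosedEmbedding ((↑) : ℤ → ℝ) := Int.isClosedEmbedding_coe_real
      exact this.isInducing.continuous_iff.2 hcn
    intro θ
    have h2 : n θ = n 0 := by
      have := PreconnectedSpace.constant (α := ℝ) inferInstance hcn' (x := θ) (y := 0)
      exact this
    have h3 := hn θ
    have h4 := hn 0
    rw [h2, ← h4, sub_self] at h3
    exact sub_eq_zero.1 h3
  have h5 := hconst (2 * Real.pi)
  simp only [hL] at h5
  have h6 : c (2 * Real.pi) = c 0 := by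
    simp [hc, circleMap]
  rw [h6] at h5
  have h7 : (m:ℂ) * (((2 * Real.pi : ℝ) : ℂ) * Complex.I) = 0 := by
    have : (m:ℂ) * (((0:ℝ):ℂ) * Complex.I) = 0 := by simp
    rw [this] at h5
    linear_combination (-1 : ℂ) * h5
  rw [mul_eq_zero] at h7
  rcases h7 with h7 | h7
  · exact hm (by exact_mod_cast h7)
  · have : (2 * Real.pi * Complex.I : ℂ) ≠ 0 := Complex.two_pi_I_ne_zero
    apply this
    push_cast at h7
    exact h7

/-- BORSUK -/
theorem borsuk (hLog : LogStmt) : BorsukStmt := by
  rintro K z₁ z₂ m m' hK hz1 hz2 hb hz2Q hm ⟨g, hg, he⟩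
  -- Tietze extension
  obtain ⟨G, hG⟩ : ∃ G : ℂ → ℂ, Continuous G ∧ EqOn G g K := by
    have hcl : IsClosed K := hK.isClosed
    obtain ⟨G, hG⟩ := ContinuousMap.exists_restrict_eq (Y := ℂ) hcl
      ⟨K.domRestrict g, continuousOn_iff_continuous_domRestrict.mp hg⟩
    refine ⟨G, G.continuous, fun x hx => ?_⟩
    have := DFunLike.congr_fun hG ⟨x, hx⟩
    exact this
  obtain ⟨hGc, hGg⟩ := hG
  set Q := connectedComponentIn Kᶜ z₁ with hQ
  have hQo : IsOpen Q := hK.isClosed.isOpen_compl.connectedComponentIn
  have hz1Q : z₁ ∈ Q := mem_connectedComponentIn hz1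
  have hQcl : closure Q ⊆ Q ∪ K := closure_comp hK.isClosed z₁
  have hz2c : z₂ ∉ closure Q := fun h => (hQcl h).elim hz2Q hz2
  classical
  set H : ℂ → ℂ := fun x => if x ∈ closure Q then (x - z₂) ^ (-m') * Complex.exp (G x)
    else (x - z₁) ^ m with hH
  have e1 : ∀ x ∈ closure Q, H x = (x - z₂) ^ (-m') * Complex.exp (G x) := by
    intro x hx; simp only [hH, if_pos hx]
  have e2 : ∀ x ∈ Qᶜ, H x = (x - z₁) ^ m := by
    intro x hx
    by_cases hxc : x ∈ closure Q
    · have hxK : x ∈ K := (hQcl hxc).resolve_left hx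
      rw [e1 x hxc, hGg hxK, he x hxK]
      have hne : x - z₂ ≠ 0 := by
        intro h
        rw [sub_eq_zero] at h
        exact hz2 (h ▸ hxK)
      rw [mul_comm, mul_assoc, ← zpow_add₀ hne]
      simp
    · simp only [hH, if_neg hxc]
  have hHc : Continuous H := by
    rw [← continuousOn_univ]
    have hu : (univ : Set ℂ) = closure Q ∪ Qᶜ := by
      ext x
      by_cases h : x ∈ Q
      · simp [subset_closure h]
      · simp [h]
    rw [hu]
    refine ContinuousOn.union_of_isClosed ?_ ?_ isClosed_closure hQo.isClosed_compl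
    · refine ContinuousOn.congr ?_ e1
      refine ContinuousOn.mul ?_ (Complex.continuous_exp.comp hGc).continuousOn
      refine ContinuousOn.zpow₀ (by fun_prop) _ ?_
      intro x hx
      left
      intro h
      rw [sub_eq_zero] at h
      exact hz2c (h ▸ hx)
    · refine ContinuousOn.congr ?_ e2
      refine ContinuousOn.zpow₀ (by fun_prop) _ ?_
      intro x hx
      left
      intro h
      rw [sub_eq_zero] at h
      exact hx (h ▸ hz1Q)
  have hH0 : ∀ x, H x ≠ 0 := by
    intro x
    by_cases hx : x ∈ closure Q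
    · rw [e1 x hx]
      refine mul_ne_zero (zpow_ne_zero _ ?_) (Complex.exp_ne_zero _)
      intro h
      rw [sub_eq_zero] at h
      exact hz2c (h ▸ hx)
    · have hx' : x ∈ Qᶜ := fun h => hx (subset_closure h)
      rw [e2 x hx']
      refine zpow_ne_zero _ ?_
      intro h
      rw [sub_eq_zero] at h
      exact hx' (h ▸ hz1Q)
  obtain ⟨h, hhc, hh⟩ := hLog H hHc hH0
  obtain ⟨R, hR⟩ := hb.subset_ball z₁
  have hR0 : 0 < R := by
    have := hR hz1Q
    rw [Metric.mem_ball, dist_self] at this
    exact this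
  refine no_log_circle (z := z₁) hR0 hm (g := h) hhc.continuousOn ?_
  intro x hx
  rw [hh x, e2 x]
  intro hxQ
  have := hR hxQ
  rw [Metric.mem_ball, Metric.mem_sphere.1 hx] at this
  exact lt_irrefl _ this

end Pool.Agent.BS.H77
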