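import Pool.Agent.Helper77_BS.Log
import Mathlib.Topology.PartitionOfUnity

/-! # BS squad: module CECH -/

set_option autoImplicit false

namespace Pool.Agent.BS.H77

open Function Filter Topology Set

/-- an integer valued continuous function on a preconnected set is constant -/
theorem int_const {s : Set ℂ} (hs : IsPreconnected s) {f : ℂ → ℂ} (hf : ContinuousOn f s)
    (hi : ∀ z ∈ s, ∃ n : ℤ, f z = n) : ∃ n : ℤ, ∀ z ∈ s, f z = n := by
  rcases s.eq_empty_or_nonempty with rfl | ⟨z₀, hz₀⟩
  · exact ⟨0, by simp⟩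
  obtain ⟨n, hn⟩ := hi z₀ hz₀
  refine ⟨n, fun z hz => ?_⟩
  choose! m hm using hi
  have hc : ContinuousOn (fun z => ((m z : ℤ) : ℝ)) s := by
    have h1 : ContinuousOn (fun z => (f z).re) s := Complex.continuous_re.comp_continuousOn hf
    refine h1.congr fun w hw => ?_
    simp only
    rw [hm w hw]
    simp
  have hc' : ContinuousOn m s :=
    (Int.isClosedEmbedding_coe_real.isInducing.continuousOn_iff).2 hc
  have h2 : m z = m z₀ := hs.constant hc' hz hz₀
  rw [hm z hz, h2, ← hm z₀ hz₀, hn]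

/-- CECH -/
theorem cech (hLog : LogStmt) : CechStmt := by
  intro V U hU hpre hcov _ c hc
  obtain ⟨ψ, hψ⟩ := PartitionOfUnity.exists_isSubordinate (X := ℂ) (s := univ) isClosed_univ U hU
    (fun z _ => mem_iUnion.2 (hcov z))
  set h : V → ℂ → ℝ := fun v z => ∑ᶠ w, ψ w z • ((c v w : ℤ) : ℝ) with hh
  have hcont : ∀ v, Continuous (h v) := fun v =>
    ψ.continuous_finsum_smul (g := fun w _ => ((c v w : ℤ) : ℝ))
      (fun w z _ => continuousAt_const)
  have hsupp : ∀ w z, ψ w z ≠ 0 → z ∈ U w := fun w z hz =>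
    hψ w (subset_tsupport _ hz)
  have hfin : ∀ v z, (support fun w => ψ w z • ((c v w : ℤ) : ℝ)).Finite := by
    intro v z
    refine (ψ.locallyFinite.point_finite z).subset fun w hw => ?_
    simp only [mem_support] at hw
    exact left_ne_zero_of_smul hw
  have hdiff : ∀ u v z, z ∈ U u → z ∈ U v → h u z - h v z = c u v := by
    intro u v z hu hv
    simp only [hh]
    rw [← finsum_sub_distrib (hfin u z) (hfin v z)]
    have h1 : ∀ w, ψ w z • ((c u w : ℤ) : ℝ) - ψ w z • ((c v w : ℤ) : ℝ)
        = ψ w z * ((c u v : ℤ) : ℝ) := by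
      intro w
      by_cases h0 : ψ w z = 0
      · simp [h0]
      · have h2 := hc u v w ⟨z, ⟨hu, hv⟩, hsupp w z h0⟩
        rw [smul_eq_mul, smul_eq_mul, ← mul_sub, ← h2]
        push_cast
        ring
    rw [finsum_congr h1, ← finsum_mul, ψ.sum_eq_one (mem_univ z), one_mul]
  choose v hv using hcov
  set F : ℂ → ℂ := fun z => Complex.exp (2 * Real.pi * Complex.I * h (v z) z) with hF
  have hFeq : ∀ u z, z ∈ U u → F z = Complex.exp (2 * Real.pi * Complex.I * h u z) := by
    intro u z hu
    have h1 := hdiff (v z) u z (hv z) hu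
    have h2 : h (v z) z = h u z + c (v z) u := by linarith
    simp only [hF]
    rw [h2]
    push_cast
    rw [mul_add, Complex.exp_add]
    have h3 : Complex.exp (2 * Real.pi * Complex.I * (c (v z) u : ℂ)) = 1 :=
      Complex.exp_eq_one_iff.2 ⟨c (v z) u, by ring⟩
    rw [h3, mul_one]
  have hFc : Continuous F := by
    rw [continuous_iff_continuousAt]
    intro z
    have h1 : F =ᶠ[𝓝 z] fun w => Complex.exp (2 * Real.pi * Complex.I * h (v z) w) := by
      filter_upwards [(hU (v z)).mem_nhds (hv z)] with w hw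
      exact hFeq _ w hw
    have h2 : Continuous fun w => Complex.exp (2 * Real.pi * Complex.I * h (v z) w) := by
      have := hcont (v z)
      fun_prop
    exact h2.continuousAt.congr h1.symm
  obtain ⟨g, hg, he⟩ := hLog F hFc (fun z => Complex.exp_ne_zero _)
  have hpi : (2 * Real.pi * Complex.I : ℂ) ≠ 0 := Complex.two_pi_I_ne_zero
  have hint : ∀ u, ∃ n : ℤ, ∀ z ∈ U u, (h u z : ℂ) - g z / (2 * Real.pi * Complex.I) = n := by
    intro u
    refine int_const (hpre u) ?_ ?_
    · have := hcont u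
      exact Continuous.continuousOn (by fun_prop)
    · intro z hz
      have h1 : Complex.exp (2 * Real.pi * Complex.I * h u z) = Complex.exp (g z) := by
        rw [he, hFeq u z hz]
      obtain ⟨n, hn⟩ := Complex.exp_eq_exp_iff_exists_int.1 h1
      refine ⟨n, ?_⟩
      rw [sub_eq_iff_eq_add, ← mul_right_inj' hpi, hn, mul_add, mul_div_cancel₀ _ hpi]
      ring
  choose χ hχ using hint
  refine ⟨χ, ?_⟩
  rintro u w ⟨z, hzu, hzw⟩
  have h1 := hχ u z hzu
  have h2 := hχ w z hzw
  have h3 := hdiff u w z hzu hzw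
  have h4 : ((χ u - χ w : ℤ) : ℂ) = ((c u w : ℤ) : ℂ) := by
    push_cast
    rw [← h1, ← h2]
    have : ((h u z - h w z : ℝ) : ℂ) = ((c u w : ℤ) : ℂ) := by rw [h3]; simp
    rw [← this]
    push_cast
    ring
  exact_mod_cast h4.symm

end Pool.Agent.BS.H77
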