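import Pool.Agent.Helper47_BS.StmtsT
import Mathlib.Analysis.Complex.BranchLogRoot
import Mathlib.Analysis.Convex.Contractible

/-! # BS squad: logarithms, modules LOG and ARCLOG -/

set_option autoImplicit false

namespace Pool.Agent.BS.H77

open Function Filter Topology Set

theorem sc_univ {E : Type*} [AddCommGroup E] [Module ℝ E] [TopologicalSpace E]
    [ContinuousAdd E] [ContinuousSMul ℝ E] : IsSimplyConnected (univ : Set E) := by
  have : ContractibleSpace (univ : Set E) := Convex.contractibleSpace convex_univ univ_nonempty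
  exact SimplyConnectedSpace.ofContractible _

/-- LOG -/
theorem log : LogStmt := by
  intro F hF h0
  obtain ⟨f, hf, he⟩ := Complex.exists_continuousOn_eqOn_exp_comp (X := ℂ) (U := univ) sc_univ
    isOpen_univ hF.continuousOn (by rintro ⟨z, _, hz⟩; exact h0 z hz)
  exact ⟨f, continuousOn_univ.mp hf, fun z => he (mem_univ z)⟩

theorem logR (F : ℝ → ℂ) (hF : Continuous F) (h0 : ∀ z, F z ≠ 0) :
    ∃ g : ℝ → ℂ, Continuous g ∧ ∀ z, Complex.exp (g z) = F z := by
  obtain ⟨f, hf, he⟩ := Complex.exists_continuousOn_eqOn_exp_comp (X := ℝ) (U := univ) sc_univ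
    isOpen_univ hF.continuousOn (by rintro ⟨z, _, hz⟩; exact h0 z hz)
  exact ⟨f, continuousOn_univ.mp hf, fun z => he (mem_univ z)⟩

/-- the inverse of an injective continuous map on a compact set is continuous -/
theorem inv_cont {α : ℝ → ℂ} {s : Set ℝ} (hs : IsCompact s) (hα : ContinuousOn α s)
    (hi : InjOn α s) : ContinuousOn (invFunOn α s) (α '' s) := by
  rw [continuousOn_iff_isClosed]
  intro t ht
  refine ⟨α '' (t ∩ s), ((hs.inter_left ht).image_of_continuousOn
    (hα.mono inter_subset_right)).isClosed, ?_⟩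
  ext z
  constructor
  · rintro ⟨h1, h2⟩
    exact ⟨⟨_, ⟨h1, invFunOn_mem h2⟩, invFunOn_eq h2⟩, h2⟩
  · rintro ⟨⟨u, ⟨h1, h2⟩, rfl⟩, h3⟩
    refine ⟨?_, h3⟩
    change invFunOn α s (α u) ∈ t
    rw [hi.leftInvOn_invFunOn h2]
    exact h1

/-- ARCLOG -/
theorem arcLog : ArcLogStmt := by
  rintro K x y ⟨α, hα, hi, h0, h1, rfl⟩ F hF hF0
  have hp : ∀ t : ℝ, ((projIcc (0:ℝ) 1 zero_le_one t : Icc (0:ℝ) 1) : ℝ) ∈ Icc (0:ℝ) 1 :=
    fun t => (projIcc (0:ℝ) 1 zero_le_one t).2
  have hc : Continuous (fun t : ℝ => F (α (projIcc (0:ℝ) 1 zero_le_one t : Icc (0:ℝ) 1))) := by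
    have h : ContinuousOn (F ∘ α) (Icc 0 1) := hF.comp hα (mapsTo_image _ _)
    exact h.comp_continuous (continuous_subtype_val.comp continuous_projIcc) hp
  obtain ⟨g, hg, he⟩ := logR _ hc (fun t => hF0 _ (mem_image_of_mem α (hp t)))
  refine ⟨g ∘ invFunOn α (Icc 0 1), hg.comp_continuousOn (inv_cont isCompact_Icc hα hi), ?_⟩
  rintro z ⟨t, ht, rfl⟩
  simp only [comp_apply]
  rw [hi.leftInvOn_invFunOn ht, he, projIcc_of_mem zero_le_one ht]

end Pool.Agent.BS.H77
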