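import Pool.Agent.Helper47_BS.Stmts
import Pool.Agent.Helper9_BS.Tools

/-! # BS squad: module WINA -/

set_option autoImplicit false

namespace Pool.Agent.BS.H77

open Function Pool.Agent.BS Pool.Agent.BS.H9

variable {D V : Type} {T : TMap D V}

/-- positive count means the dart is on the path -/
theorem mem_of_cnt_pos {p : ℕ → D} {n : ℕ} {d : D} (h : 1 ≤ T.cnt p n d) : ∃ t < n, p t = d := by
  classical
  by_contra hc
  push Not at hc
  have : T.cnt p n d ≤ 0 := by
    unfold TMap.cnt
    refine Finset.sum_nonpos ?_
    intro k hk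
    rw [if_neg (hc k (Finset.mem_range.1 hk))]
    split_ifs <;> norm_num
  linarith

/-- a finite nonempty set of vertices has a boundary dart -/
theorem exists_bdry [Infinite V] {S : Set V} (hS : S.Finite) (hne : S.Nonempty) :
    ∃ d, T.lf d ∈ S ∧ T.rt d ∉ S := by
  by_contra hc
  push Not at hc
  have h1 : S = Set.univ := by
    refine eq_univ_of_adj (T := T) hne ?_
    rintro u v hu ⟨d, rfl, rfl⟩
    exact hc d hu
  rw [h1] at hS
  exact Set.infinite_univ hS

/-- WINA -/
theorem winA : WinAStmt := by
  intro D V T c s hT hV hs hinj j i hji hlf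
  set a := T.lf (T.st c s j) with ha
  have hst : ∀ k, T.State c (T.st c s k) := fun k => hs.st k
  have hao : c a = true := (hst j).1
  obtain ⟨m, hm⟩ : ∃ m : ℕ, i = j + m := ⟨(i - j).toNat, by omega⟩
  have hm0 : 0 < m := by omega
  set q : ℕ → D := fun t => T.st c s (j + t) with hq
  have hqs : ∀ t, T.State c (q t) := fun t => hst _
  have hqn : ∀ t, q (t + 1) = T.nx c (q t) := by
    intro t
    have := hs.st_succ (j + t)
    simp only [hq]
    rw [← this]
    congr 1
    push_cast
    ring
  have hclosed_rt : ∀ k, T.rt (T.st c s k) ≠ a := by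
    intro k h
    have h1 := (hst k).2
    rw [h, hao] at h1
    exact absurd h1 (by simp)
  obtain ⟨χ, hfin, h1, h2, p, n, -, -, hcnt, hmn, hp1, -, hp3, -, -⟩ :=
    strand_lam hT q m a hm0 (fun k _ => by rw [hqn k]; exact nx_turn c _)
      (fun k l _ _ h => by
        have := hinj h
        omega)
      (fun k l _ _ h => by
        have h3 := (hqs l).1
        rw [← h, T.lf_al] at h3
        rw [(hqs k).2] at h3
        exact absurd h3 (by simp))
      (by simp only [hq]; simp [ha]) (by simp only [hq]; rw [← hm]; exact hlf.symm)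
      (fun k _ => hclosed_rt _)
  -- edges with equally colored ends
  have h4 : ∀ d, c (T.lf d) = c (T.rt d) → T.lf d ≠ a → T.rt d ≠ a → χ (T.lf d) = χ (T.rt d) := by
    intro d hd hl hr
    refine h1 d ?_ hr hl
    intro t _
    constructor
    · intro h
      have h5 := hqs t
      rw [h] at h5
      rw [h5.1, h5.2] at hd
      exact absurd hd (by simp)
    · intro h
      have h5 := hqs t
      rw [h] at h5
      have h6 := h5.1
      have h7 := h5.2
      rw [T.lf_al] at h6
      rw [T.rt_al] at h7
      rw [h6, h7] at hd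
      exact absurd hd (by simp)
  have hclosed_ne : ∀ v, c v = false → v ≠ a := by
    rintro v hv rfl
    rw [hao] at hv
    exact absurd hv (by simp)
  -- the right vertices
  have hb1 : ∀ k, χ (T.rt (T.st c s (k + 1))) = χ (T.rt (T.st c s k)) := by
    intro k
    rcases hs.lf_succ k with ⟨-, h5, h6⟩ | ⟨h5, -, -⟩
    · rw [h5]
      obtain ⟨d, hd1, hd2⟩ := T.adj_tau_rt (T.st c s k)
      have h7 : c (T.rt (T.st c s k)) = false := (hst k).2
      have := h4 d (by rw [hd1, hd2, h6, h7]) (by rw [hd1]; exact hclosed_ne _ h6)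
        (by rw [hd2]; exact hclosed_ne _ h7)
      rw [hd1, hd2] at this
      exact this
    · rw [h5]
  have hb2 : ∀ k, χ (T.rt (T.st c s k)) = χ (T.rt (T.st c s 0)) := by
    intro k
    induction k using Int.induction_on with
    | zero => rfl
    | succ k ih => rw [hb1, ih]
    | pred k ih =>
      have := hb1 (-(k:ℤ) - 1)
      rw [sub_add_cancel] at this
      rw [← this, ih]
  have hb : ∀ k, χ (T.rt (T.st c s k)) = 0 := by
    by_contra hc
    push Not at hc
    obtain ⟨k₀, hk₀⟩ := hc
    have h5 : ∀ k, χ (T.rt (T.st c s k)) ≠ 0 := by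
      intro k
      rw [hb2 k, ← hb2 k₀]
      exact hk₀
    have h6 : (Set.range (T.st c s)).Finite := by
      refine (finite_stars_rt (T := T) hfin).subset ?_
      rintro _ ⟨k, rfl⟩
      exact h5 k
    exact Set.infinite_range_of_injective hinj h6
  have hwin : ∀ k, j ≤ k → k ≤ i → χ (T.lf (T.st c s k)) = 1 := by
    have key : ∀ t ≤ m, (T.lf (q t) ≠ a ∨ t = 0) → χ (T.lf (q t)) = 1 := by
      intro t ht hor
      have h5 := h2 t ht hor
      have h6 : χ (T.rt (q t)) = 0 := hb _
      rw [h6, sub_zero] at h5
      exact h5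
    have hχa : χ a = 1 := by
      have := key 0 (Nat.zero_le _) (Or.inr rfl)
      simpa [hq, ha] using this
    intro k hk1 hk2
    obtain ⟨t, rfl⟩ : ∃ t : ℕ, k = j + t := ⟨(k - j).toNat, by omega⟩
    by_cases h5 : T.lf (q t) = a
    · change χ (T.lf (q t)) = 1
      rw [h5, hχa]
    · exact key t (by omega) (Or.inl h5)
  have hχa : χ a = 1 := hwin j le_rfl hji.le
  -- left vertices of the path
  have hpl : ∀ t < n, χ (T.lf (p t)) = 1 := by
    intro t _
    rcases Nat.lt_or_ge t m with h5 | h5
    · rw [hp1 t h5.le]
      exact hwin _ (by omega) (by omega)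
    · rw [hp3 t h5, hχa]
  refine ⟨χ, hfin, ?_, hb, hwin, ?_, h4⟩
  · -- values
    have hup : ∀ v, χ v ≤ 1 := by
      by_contra hc
      push Not at hc
      obtain ⟨v, hv⟩ := hc
      obtain ⟨d, hd1, hd2⟩ := exists_bdry (T := T) (S := {v | 1 < χ v})
        (hfin.subset (fun w hw => by
          simp only [Set.mem_ofPred_eq] at hw
          simp only [mem_support]
          omega)) ⟨v, hv⟩
      simp only [Set.mem_ofPred_eq, not_lt] at hd1 hd2
      obtain ⟨t, ht, rfl⟩ := mem_of_cnt_pos (T := T) (p := p) (n := n) (d := d)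
        (by rw [hcnt d]; omega)
      rw [hpl t ht] at hd1
      omega
    have hlo : ∀ v, 0 ≤ χ v := by
      by_contra hc
      push Not at hc
      obtain ⟨v, hv⟩ := hc
      obtain ⟨e, he1, he2⟩ := exists_bdry (T := T) (S := {v | χ v < 0})
        (hfin.subset (fun w hw => by
          simp only [Set.mem_ofPred_eq] at hw
          simp only [mem_support]
          omega)) ⟨v, hv⟩
      simp only [Set.mem_ofPred_eq, not_lt] at he1 he2
      -- darts entering the set start at `a`
      have hin : ∀ d, 0 ≤ χ (T.lf d) → χ (T.rt d) < 0 → T.lf d = a := by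
        intro d hd1 hd2
        obtain ⟨t, ht, rfl⟩ := mem_of_cnt_pos (T := T) (p := p) (n := n) (d := d)
          (by rw [hcnt d]; omega)
        rcases Nat.lt_or_ge t m with h5 | h5
        · exfalso
          rw [hp1 t h5.le] at hd2
          have h6 : χ (T.rt (q t)) = 0 := hb _
          omega
        · exact hp3 t h5
      have hd0 : T.lf (T.al e) = a := hin (T.al e) (by rw [T.lf_al]; exact he2)
        (by rw [T.rt_al]; exact he1)
      have hrot : ∀ n : ℕ, χ (T.rt ((T.lam ^ n) (T.al e))) < 0 := by
        intro n
        induction n with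
        | zero =>
          rw [pow_zero, Equiv.Perm.one_apply, T.rt_al]
          exact he1
        | succ n ih =>
          rw [pow_succ', Equiv.Perm.mul_apply]
          set f := (T.lam ^ n) (T.al e) with hf
          have hfa : T.lf f = a := by rw [hf, lf_lam_pow, hd0]
          by_contra hcon
          push Not at hcon
          rw [T.rt_lam] at hcon
          have h7 := hin (T.rho f) (by rw [T.lf_rho]; exact hcon) (by rw [T.rt_rho]; exact ih)
          rw [T.lf_rho] at h7
          have h8 := TMap.lf_ne_rt (T := T) (T.lam f)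
          rw [T.lf_lam, T.rt_lam, hfa, h7] at h8
          exact h8 rfl
      obtain ⟨k, hk⟩ := T.cyc (T.al e) (T.st c s j) (by rw [hd0])
      have h9 := hrot k
      rw [hk, hb j] at h9
      exact lt_irrefl _ h9
    intro v
    have h5 := hup v
    have h6 := hlo v
    omega
  · -- outside the window
    intro k hk hka
    have h5 : χ (T.lf (T.st c s k)) = χ (T.rt (T.st c s k)) := by
      refine h1 _ ?_ (hclosed_rt k) hka
      intro t ht
      constructor
      · intro h
        have := hinj h
        omega
      · intro h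
        have h6 := (hqs t).1
        rw [h, T.lf_al, (hst k).2] at h6
        exact absurd h6 (by simp)
    rw [h5, hb k]

end Pool.Agent.BS.H77
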